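import Pool.Agent.P.MP_012ca0_co.Sh.Des

/-! Random regular orientations of the blocks of a design, with the gain of each block. -/

namespace Pool.Agent.P.MP_012ca0_co.Sh

open Finset

variable {V : Type} [DecidableEq V]

/-- `T` is a regular tournament on `b`. -/
def Reg (b : Finset V) (T : V → V → Bool) : Prop :=
  (∀ x ∈ b, ∀ y ∈ b, x ≠ y → T x y = !T y x) ∧
    ∀ x ∈ b, 2 * #{y ∈ b.erase x | T x y = true} = #(b.erase x)

/-- A successor map without fixed points and without cycles of length two. -/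
def Suc (c : V → V) : Prop := Function.Injective c ∧ (∀ v, c v ≠ v) ∧ ∀ v, c (c v) ≠ v

/-- The finite check on a block with `m + 2` points. -/
def Chk (m : ℕ) {Ω : Type} [Fintype Ω] (T : Ω → Fin (m + 2) → Fin (m + 2) → Bool)
    (f : Fin (m + 2) → Fin (m + 2)) : Prop :=
  (∀ x y, f x ≠ x → f y ≠ y → f x = f y → x = y) → (∀ x, f x ≠ x → f (f x) ≠ x) →
    Fintype.card Ω * (m + #{x | f x ≠ x ∧ f (f x) ≠ f x}) ≤
      m * (2 ^ #{x | f x ≠ x} * #{ω | ∀ x, f x ≠ x → T ω x (f x) = true})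

/-- A family of regular tournaments on the block `b` with the gain of paths of length two. -/
def Fam (b : Finset V) : Prop :=
  ∃ (Ω : Type) (_ : Fintype Ω) (T : Ω → V → V → Bool), Nonempty Ω ∧ (∀ ω, Reg b (T ω)) ∧
    ∀ c, Suc c → (Fintype.card Ω : ℝ) *
      (1 + #{v ∈ b | c v ∈ b ∧ c (c v) ∈ b} * ((#b : ℝ) - 2)⁻¹) ≤
      2 ^ #{v ∈ b | c v ∈ b} * #{ω | ∀ v ∈ b, c v ∈ b → T ω v (c v) = true}

theorem fam_of_fin {m : ℕ} (hm : 0 < m) {Ω : Type} [Fintype Ω] [Nonempty Ω]
    (T : Ω → Fin (m + 2) → Fin (m + 2) → Bool) (h1 : ∀ ω, Reg univ (T ω)) (h2 : ∀ f, Chk m T f)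
    {b : Finset V} (hb : #b = m + 2) : Fam b := by
  let e : Fin (m + 2) ≃ b := (b.equivFinOfCardEq hb).symm
  let j : Fin (m + 2) ↪ V := e.toEmbedding.trans (Function.Embedding.subtype _)
  let g : V → Fin (m + 2) := fun x => if h : x ∈ b then e.symm ⟨x, h⟩ else 0
  have hj : ∀ a, j a ∈ b := fun a => (e a).2
  have gj : ∀ a, g (j a) = a := fun a => by
    simp only [g, dif_pos (hj a)]
    exact e.symm_apply_apply a
  have jg : ∀ x ∈ b, j (g x) = x := fun x hx => by simp [g, j, hx]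
  have hbj : b = univ.map j := by
    ext x
    simp only [mem_map, mem_univ, true_and]
    exact ⟨fun hx => ⟨_, jg x hx⟩, fun ⟨a, ha⟩ => ha ▸ hj a⟩
  have cf : ∀ (p : V → Prop) [DecidablePred p] (q : Fin (m + 2) → Prop) [DecidablePred q],
      (∀ a, p (j a) ↔ q a) → #{v ∈ b | p v} = #{a | q a} := fun p _ q _ h => by
    rw [hbj, filter_map, card_map]
    exact congrArg card (filter_congr fun a _ => h a)
  refine ⟨Ω, inferInstance, fun ω x y => T ω (g x) (g y), inferInstance, fun ω => ⟨?_, ?_⟩, ?_⟩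
  · exact fun x hx y hy h => (h1 ω).1 _ (mem_univ _) _ (mem_univ _) fun a =>
      h (by rw [← jg x hx, a, jg y hy])
  · intro x hx
    have h := (h1 ω).2 (g x) (mem_univ _)
    rw [card_erase_of_mem (mem_univ _), filter_erase, ← filter_ne', filter_filter] at h
    rw [card_erase_of_mem hx, filter_erase, ← filter_ne', filter_filter, hb,
      cf _ (fun a => T ω (g x) a = true ∧ a ≠ g x) fun a => ?_, h, card_univ, Fintype.card_fin]
    simp only [gj]
    exact and_congr_right' (not_congr ⟨fun k => by rw [← k, gj], fun k => by rw [k, jg x hx]⟩)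
  · rintro c ⟨c1, c2, c3⟩
    let f : Fin (m + 2) → Fin (m + 2) := fun a => if c (j a) ∈ b then g (c (j a)) else a
    have f1 : ∀ a, c (j a) ∈ b → j (f a) = c (j a) := fun a h => by
      simp only [f, if_pos h, jg _ h]
    have f2 : ∀ a, f a ≠ a ↔ c (j a) ∈ b := fun a =>
      ⟨fun h => by_contra fun k => h (if_neg k), fun h k => c2 _ (by rw [← f1 a h, k])⟩
    have h := h2 f (fun x y hx hy k => j.injective (c1 (by
      rw [← f1 x ((f2 x).1 hx), ← f1 y ((f2 y).1 hy), k]))) fun x hx k => by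
        have k1 := f1 x ((f2 x).1 hx)
        have k2 := f1 (f x) ((f2 _).1 (by rw [k]; exact hx.symm))
        rw [k, k1] at k2
        exact c3 _ k2.symm
    have e1 : #{v ∈ b | c v ∈ b ∧ c (c v) ∈ b} = #{x | f x ≠ x ∧ f (f x) ≠ f x} :=
      cf _ _ fun a => by
        rw [f2, f2]
        exact and_congr_right fun k => by rw [f1 a k]
    have e2 : #{v ∈ b | c v ∈ b} = #{x | f x ≠ x} := cf _ _ fun a => (f2 a).symm
    have e3 : #{ω | ∀ v ∈ b, c v ∈ b → T ω (g v) (g (c v)) = true} =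
        #{ω | ∀ x, f x ≠ x → T ω x (f x) = true} := by
      refine congrArg card (filter_congr fun ω _ => ⟨fun k x hx => ?_, fun k v hv hc => ?_⟩)
      · have := k _ (hj x) ((f2 x).1 hx)
        rwa [← f1 x ((f2 x).1 hx), gj, gj] at this
      · rw [← jg v hv] at hc
        have := k _ ((f2 _).2 hc)
        rwa [← gj (f _), f1 _ hc, jg v hv] at this
    have h0 : (0 : ℝ) < m := by exact_mod_cast hm
    rw [e1, e2, e3, hb, show ((m + 2 : ℕ) : ℝ) - 2 = m by push_cast; ring]
    refine le_of_mul_le_mul_left (le_of_eq_of_le ?_ ((Nat.cast_le (α := ℝ)).2 h |>.trans_eq ?_)) h0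
    · push_cast
      field_simp
    · push_cast
      rfl

theorem fam_three {b : Finset V} (hb : #b = 3) : Fam b :=
  fam_of_fin (m := 1) one_pos T3 (by unfold Reg; decide) (by unfold Chk; decide +kernel) hb

theorem chk_five : ∀ a b c d e : Fin 5, Chk 3 T5 ![a, b, c, d, e] := by
  unfold Chk
  decide +kernel

theorem fam_five {b : Finset V} (hb : #b = 5) : Fam b :=
  fam_of_fin (m := 3) three_pos T5 (by unfold Reg; decide +kernel) (fun f => by
    have : f = ![f 0, f 1, f 2, f 3, f 4] := by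
      funext i; fin_cases i <;> rfl
    rw [this]
    exact chk_five _ _ _ _ _) hb

/-- The weight of a path of length two. -/
noncomputable def wt (blk : V → V → Finset V) (x y z : V) : ℝ :=
  if x ≠ y ∧ z ≠ x ∧ z ≠ y ∧ z ∈ blk x y then ((#(blk x y) : ℝ) - 2)⁻¹ else 0

variable [Fintype V] {blk : V → V → Finset V}

omit [DecidableEq V] in
theorem IsDes.mem (h : IsDes univ blk) {x y : V} (hxy : x ≠ y) : x ∈ blk x y ∧ y ∈ blk x y :=
  ⟨(h x (mem_univ _) y (mem_univ _) hxy).1, (h x (mem_univ _) y (mem_univ _) hxy).2.1⟩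

omit [DecidableEq V] in
theorem IsDes.card (h : IsDes univ blk) {x y : V} (hxy : x ≠ y) :
    #(blk x y) = 3 ∨ #(blk x y) = 5 := (h x (mem_univ _) y (mem_univ _) hxy).2.2.2.1

omit [DecidableEq V] in
theorem IsDes.eq (h : IsDes univ blk) {x y u v : V} (hxy : x ≠ y) (hu : u ∈ blk x y)
    (hv : v ∈ blk x y) (huv : u ≠ v) : blk u v = blk x y :=
  (h x (mem_univ _) y (mem_univ _) hxy).2.2.2.2 u hu v hv huv

omit [DecidableEq V] in
theorem IsDes.iff (h : IsDes univ blk) {x y u v : V} (hxy : x ≠ y) (huv : u ≠ v) :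
    blk u v = blk x y ↔ u ∈ blk x y ∧ v ∈ blk x y :=
  ⟨fun e => e ▸ h.mem huv, fun e => h.eq hxy e.1 e.2 huv⟩

theorem fam_all (h : IsDes univ blk) (b : Finset V) :
    ∃ (Ω : Type) (_ : Fintype Ω) (T : Ω → V → V → Bool), Nonempty Ω ∧
      ((∃ x y, x ≠ y ∧ blk x y = b) → ∀ ω, Reg b (T ω)) ∧ ∀ c, Suc c → (Fintype.card Ω : ℝ) *
        (1 + ∑ v with blk v (c v) = b, wt blk v (c v) (c (c v))) ≤ 2 ^ #{v | blk v (c v) = b} *
          #{ω | ∀ v, blk v (c v) = b → T ω v (c v) = true} := by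
  by_cases hb : ∃ x y, x ≠ y ∧ blk x y = b
  · obtain ⟨x, y, hxy, rfl⟩ := hb
    obtain ⟨Ω, _, T, a1, a2, a3⟩ := (h.card hxy).elim fam_three fam_five
    refine ⟨Ω, inferInstance, T, a1, fun _ => a2, fun c hc => ?_⟩
    have e := fun v => h.iff hxy (hc.2.1 v).symm
    have e1 : ({v | blk v (c v) = blk x y} : Finset V) = {v ∈ blk x y | c v ∈ blk x y} := by
      ext v
      simp [e]
    have e2 : ∑ v with blk v (c v) = blk x y, wt blk v (c v) (c (c v)) =
        #{v ∈ blk x y | c v ∈ blk x y ∧ c (c v) ∈ blk x y} * ((#(blk x y) : ℝ) - 2)⁻¹ := by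
      rw [← filter_filter, ← e1, ← nsmul_eq_mul, ← sum_const, sum_filter fun v => c (c v) ∈ blk x y]
      refine sum_congr rfl fun v hv => ?_
      simp [wt, (mem_filter.1 hv).2, (hc.2.1 v).symm, hc.2.2 v, hc.2.1 (c v)]
    rw [e2, e1]
    refine (a3 c hc).trans_eq (congrArg (fun s : Finset Ω => _ * (#s : ℝ)) ?_)
    ext ω
    simp only [mem_filter, e, and_imp]
  · refine ⟨Unit, inferInstance, fun _ _ _ => true, ⟨()⟩, fun k => absurd k hb, fun c hc => ?_⟩
    have e : ({v | blk v (c v) = b} : Finset V) = ∅ :=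
      filter_eq_empty_iff.2 fun v _ k => hb ⟨v, c v, (hc.2.1 v).symm, k⟩
    simp [e]

theorem exists_tour (h : IsDes univ blk) {κ : Type} [Fintype κ] (c : κ → V → V)
    (hc : ∀ s, Suc (c s)) : ∃ T, Reg univ T ∧
      ∑ s, ∏ b, (1 + ∑ v with blk v (c s v) = b, wt blk v (c s v) (c s (c s v))) ≤
        2 ^ Fintype.card V * #{s | ∀ v, T v (c s v) = true} := by
  choose Ω _ T a1 a2 a3 using fam_all h
  let T' : (∀ b, Ω b) → V → V → Bool := fun ω x y => T (blk x y) (ω (blk x y)) x y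
  have t1 : ∀ ω x y b, blk x y = b → T' ω x y = T b (ω b) x y := by
    rintro ω x y b rfl; rfl
  have one : ∀ s, (Fintype.card (∀ b, Ω b) : ℝ) *
      ∏ b, (1 + ∑ v with blk v (c s v) = b, wt blk v (c s v) (c s (c s v))) ≤
        2 ^ Fintype.card V * #{ω | ∀ v, T' ω v (c s v) = true} := fun s => by
    have e1 : ({ω | ∀ v, T' ω v (c s v) = true} : Finset (∀ b, Ω b)) = Fintype.piFinset
        fun b => {ω | ∀ v, blk v (c s v) = b → T b ω v (c s v) = true} := by
      ext ω
      simp only [mem_filter, mem_univ, true_and, Fintype.mem_piFinset]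
      exact ⟨fun k b v e => t1 ω _ _ b e ▸ k v, fun k v => k _ v rfl⟩
    rw [e1, Fintype.card_piFinset, Fintype.card_pi, ← card_univ (α := V),
      card_eq_sum_card_fiberwise (f := fun v => blk v (c s v)) (t := univ) fun _ _ => mem_univ _,
      ← prod_pow_eq_pow_sum]
    push_cast
    rw [← prod_mul_distrib, ← prod_mul_distrib]
    refine prod_le_prod (fun b _ => mul_nonneg (Nat.cast_nonneg _) (add_nonneg zero_le_one
      (sum_nonneg fun v _ => ?_))) fun b _ => a3 b _ (hc s)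
    unfold wt
    split_ifs with k
    · rcases h.card k.1 with e | e <;> rw [e] <;> norm_num
    · rfl
  obtain ⟨ω, -, hω⟩ := exists_le_of_sum_le (univ_nonempty (α := ∀ b, Ω b))
    (f := fun _ => ∑ s, ∏ b, (1 + ∑ v with blk v (c s v) = b, wt blk v (c s v) (c s (c s v))))
    (g := fun ω => (2 : ℝ) ^ Fintype.card V * #{s | ∀ v, T' ω v (c s v) = true}) (by
      rw [sum_const, card_univ, nsmul_eq_mul, mul_sum]
      refine (sum_le_sum fun s _ => one s).trans_eq ?_
      simp only [← mul_sum, card_filter, Nat.cast_sum]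
      rw [sum_comm])
  refine ⟨T' ω, ⟨fun x _ y _ hxy => ?_, fun x _ => ?_⟩, hω⟩
  · rw [t1 ω y x _ (h.eq hxy (h.mem hxy).2 (h.mem hxy).1 hxy.symm)]
    exact (a2 _ ⟨x, y, hxy, rfl⟩ _).1 x (h.mem hxy).1 y (h.mem hxy).2 hxy
  · rw [card_eq_sum_card_fiberwise (f := blk x) (t := univ) fun _ _ => mem_univ _,
      card_eq_sum_card_fiberwise (s := univ.erase x) (f := blk x) (t := univ)
        fun _ _ => mem_univ _, mul_sum]
    refine sum_congr rfl fun b _ => ?_
    rw [filter_comm]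
    by_cases hb : ∃ y, x ≠ y ∧ blk x y = b
    · obtain ⟨y, hy, rfl⟩ := hb
      have e : ({z ∈ univ.erase x | blk x z = blk x y} : Finset V) = (blk x y).erase x := by
        ext z
        simp only [mem_filter, mem_erase, mem_univ, and_true]
        exact and_congr_right fun k => (h.iff hy k.symm).trans (and_iff_right (h.mem hy).1)
      rw [e, ← (a2 _ ⟨x, y, hy, rfl⟩ (ω _)).2 x (h.mem hy).1, ← e]
      exact congrArg (2 * card ·) (filter_congr fun z hz => by rw [t1 ω x z _ (mem_filter.1 hz).2])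
    · rw [filter_eq_empty_iff.2 fun y hy e => hb ⟨y, (ne_of_mem_erase hy).symm, e⟩]
      rfl

end Pool.Agent.P.MP_012ca0_co.Sh
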