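import Pool.Agent.P.MP_012ca0_co.Sh.Exp

/-! The average gain of a Hamilton cycle. -/

namespace Pool.Agent.P.MP_012ca0_co.Sh

open Finset

variable {n : ℕ} [NeZero n] {V : Type} [Fintype V] [DecidableEq V] {blk : V → V → Finset V}

def seg (i : ZMod n) : Finset (ZMod n) := {i, i + 1, i + 1 + 1}

def Far (I : Finset (ZMod n)) : Prop := ∀ i ∈ I, ∀ j ∈ I, i ≠ j → Disjoint (seg i) (seg j)

open Classical in
noncomputable def far (n : ℕ) [NeZero n] (m : ℕ) : Finset (Finset (ZMod n)) :=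
  {I ∈ powersetCard m univ | Far I}

theorem mem_far {m : ℕ} {I : Finset (ZMod n)} : I ∈ far n m ↔ #I = m ∧ Far I := by
  simp [far, mem_powersetCard]

theorem far_step (m : ℕ) : #(far n m) * (n - 5 * m) ≤ #(far n (m + 1)) * (m + 1) := by
  classical
  refine card_mul_le_card_mul (· ⊆ ·) (fun I hI => ?_) fun J hJ => ?_
  · obtain ⟨a1, a2⟩ := mem_far.1 hI
    let N := I.biUnion fun j => ({j - 2, j - 1, j, j + 1, j + 2} : Finset (ZMod n))
    have h1 : #N ≤ m * 5 := a1 ▸ card_biUnion_le_card_mul _ _ _ fun j _ => card_le_five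
    have h2 : ∀ i ∈ Nᶜ, ∀ j ∈ I, i ≠ j ∧ Disjoint (seg i) (seg j) := fun i hi j hj => by
      have h : i ∉ ({j - 2, j - 1, j, j + 1, j + 2} : Finset (ZMod n)) := fun k =>
        mem_compl.1 hi (mem_biUnion.2 ⟨j, hj, k⟩)
      simp only [mem_insert, mem_singleton, not_or] at h
      obtain ⟨b1, b2, b3, b4, b5⟩ := h
      refine ⟨b3, disjoint_left.2 fun x hx hy => ?_⟩
      simp only [seg, mem_insert, mem_singleton] at hx hy
      rcases hx with rfl | rfl | rfl <;> rcases hy with k | k | k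
      exacts [b3 k, b4 k, b5 (by linear_combination k), b2 (by linear_combination k),
        b3 (by linear_combination k), b4 (by linear_combination k), b1 (by linear_combination k),
        b2 (by linear_combination k), b3 (by linear_combination k)]
    have h3 : ∀ i ∈ Nᶜ, i ∉ I := fun i hi k => (h2 i hi i k).1 rfl
    refine le_trans ?_ (card_le_card_of_injOn (s := Nᶜ) (insert · I) (fun i hi => ?_)
      fun i hi j hj e => ?_)
    · rw [card_compl, ZMod.card]
      omega
    · refine mem_coe.2 (mem_filter.2 ⟨mem_far.2 ⟨?_, fun x hx y hy k => ?_⟩, subset_insert _ _⟩)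
      · rw [card_insert_of_notMem (h3 i hi), a1]
      · rcases mem_insert.1 hx with rfl | hx' <;> rcases mem_insert.1 hy with rfl | hy'
        exacts [(k rfl).elim, (h2 _ hi _ hy').2, (h2 _ hi _ hx').2.symm, a2 x hx' y hy' k]
    · exact (insert_inj (h3 i hi)).1 e
  · refine (card_le_card (t := powersetCard m J) fun I hI => ?_).trans_eq ?_
    · obtain ⟨a1, a2⟩ := mem_filter.1 hI
      exact mem_powersetCard.2 ⟨a2, (mem_far.1 a1).1⟩
    · rw [card_powersetCard, (mem_far.1 hJ).1, Nat.choose_succ_self_right]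

omit [NeZero n] in
theorem ne_add (hn : 5 ≤ n) : (1 : ZMod n) ≠ 0 ∧ (2 : ZMod n) ≠ 0 ∧ (3 : ZMod n) ≠ 0 ∧
    (4 : ZMod n) ≠ 0 := by
  have h : ∀ k : ℕ, 0 < k → k < 5 → (k : ZMod n) ≠ 0 := fun k a b c =>
    absurd (Nat.le_of_dvd a ((ZMod.natCast_eq_zero_iff k n).1 c)) (by omega)
  exact ⟨by simpa using h 1 (by omega) (by omega), h 2 (by omega) (by omega),
    h 3 (by omega) (by omega), h 4 (by omega) (by omega)⟩

/-- The weight of the path that starts at position `i`. -/
noncomputable def WW (blk : V → V → Finset V) (σ : ZMod n ≃ V) (i : ZMod n) : ℝ :=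
  wt blk (σ i) (σ (i + 1)) (σ (i + 1 + 1))

theorem far_avg (h : IsDes univ blk) (hV : Fintype.card V = n) (hn : 5 ≤ n)
    (I : Finset (ZMod n)) (hI : Far I) : #(I.biUnion seg) = 3 * #I ∧
      (∏ j ∈ range #I, lam n (3 * j)) * Fintype.card (ZMod n ≃ V) ≤
        ∑ σ : ZMod n ≃ V, ∏ i ∈ I, WW blk σ i := by
  obtain ⟨n1, n2, -, -⟩ := ne_add hn
  induction I using Finset.induction_on with
  | empty => simp
  | insert i I hi ih =>
    obtain ⟨a1, a2⟩ := ih fun x hx y hy => hI x (mem_insert_of_mem hx) y (mem_insert_of_mem hy)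
    have h1 : Disjoint (seg i) (I.biUnion seg) := (disjoint_biUnion_right _ _ _).2 fun j hj =>
      hI i (mem_insert_self _ _) j (mem_insert_of_mem hj) (ne_of_mem_of_not_mem hj hi).symm
    have d1 : i ≠ i + 1 := fun k => n1 (by linear_combination -k)
    have d2 : i ≠ i + 1 + 1 := fun k => n2 (by linear_combination -k)
    have d3 : i + 1 ≠ i + 1 + 1 := fun k => n1 (by linear_combination -k)
    rw [card_insert_of_notMem hi, biUnion_insert, card_union_of_disjoint h1, a1,
      show #(seg i) = 3 from card_eq_three.2 ⟨_, _, _, d1, d2, d3, rfl⟩, prod_range_succ]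
    refine ⟨by ring, ?_⟩
    have h2 := triple h (by rw [hV, ZMod.card]) (A := I.biUnion seg)
      (disjoint_left.1 h1 (by simp [seg])) (disjoint_left.1 h1 (by simp [seg]))
      (disjoint_left.1 h1 (by simp [seg])) d1 d2 d3 (G := fun σ => ∏ i ∈ I, WW blk σ i)
      (fun σ σ' e => prod_congr rfl fun j hj => by
        have e' := fun a ha => e a (mem_biUnion.2 ⟨j, hj, ha⟩)
        rw [WW, WW, e' j (by simp [seg]), e' (j + 1) (by simp [seg]),
          e' (j + 1 + 1) (by simp [seg])])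
      fun σ => prod_nonneg fun _ _ => wt_nonneg h _ _ _
    rw [hV, a1] at h2
    rw [mul_right_comm, mul_comm]
    refine ((mul_le_mul_of_nonneg_left a2 (lam_nonneg _ _)).trans h2).trans_eq ?_
    exact sum_congr rfl fun σ _ => by rw [prod_insert hi, mul_comm]; rfl

theorem near_avg (h : IsDes univ blk) (hV : Fintype.card V = n) (hn : 5 ≤ n) {M : ℕ}
    (hM : ∀ x y, x ≠ y → #(blk x y) ≤ M) (hMn : M ≤ n) (i : ZMod n) :
    ((n : ℝ) - M) / ((n - 4) * (n - 3)) * lam n 0 * Fintype.card (ZMod n ≃ V) ≤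
      ∑ σ : ZMod n ≃ V, if σ (i + 1 + 1 + 1) ∉ blk (σ i) (σ (i + 1)) then
        WW blk σ i * WW blk σ (i + 1 + 1) else 0 := by
  obtain ⟨n1, n2, n3, n4⟩ := ne_add hn
  have d1 : i ≠ i + 1 := fun k => n1 (by linear_combination -k)
  have d2 : i ≠ i + 1 + 1 := fun k => n2 (by linear_combination -k)
  have d3 : i + 1 ≠ i + 1 + 1 := fun k => n1 (by linear_combination -k)
  have c3 : #(seg i) = 3 := card_eq_three.2 ⟨_, _, _, d1, d2, d3, rfl⟩
  have m3 : i + 1 + 1 + 1 ∉ seg i := by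
    simp only [seg, mem_insert, mem_singleton, not_or]
    exact ⟨fun k => n3 (by linear_combination k), fun k => n2 (by linear_combination k),
      fun k => n1 (by linear_combination k)⟩
  have m4 : i + 1 + 1 + 1 + 1 ∉ insert (i + 1 + 1 + 1) (seg i) := by
    simp only [seg, mem_insert, mem_singleton, not_or]
    exact ⟨fun k => n1 (by linear_combination k), fun k => n4 (by linear_combination k),
      fun k => n3 (by linear_combination k), fun k => n2 (by linear_combination k)⟩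
  have hb : ∀ σ : ZMod n ≃ V, WW blk σ i ≠ 0 → ∀ a ∈ seg i, σ a ∈ blk (σ i) (σ (i + 1)) := by
    intro σ k a ha
    simp only [seg, mem_insert, mem_singleton] at ha
    rcases ha with rfl | rfl | rfl
    exacts [(h.mem (wt_ne k).1).1, (h.mem (wt_ne k).1).2, (wt_ne k).2.2.2]
  have p1 := point (V := V) m3
    (Φ := fun σ u => if u ∉ blk (σ i) (σ (i + 1)) then WW blk σ i else 0)
    (fun σ σ' e => by
      simp only [WW, e i (by simp [seg]), e (i + 1) (by simp [seg]), e (i + 1 + 1) (by simp [seg])])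
    fun σ a ha => ite_eq_right_iff.2 fun k => by_contra fun k' => k (hb σ k' a ha)
  have p2 := point (V := V) m4
    (Φ := fun σ y => if σ (i + 1 + 1 + 1) ∉ blk (σ i) (σ (i + 1)) then
      WW blk σ i * wt blk (σ (i + 1 + 1)) (σ (i + 1 + 1 + 1)) y else 0)
    (fun σ σ' e => by
      simp only [WW, e i (by simp [seg]), e (i + 1) (by simp [seg]), e (i + 1 + 1) (by simp [seg]),
        e (i + 1 + 1 + 1) (by simp)])
    fun σ a ha => ite_eq_right_iff.2 fun k => by_contra fun k' => by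
      obtain ⟨b1, b2, b3, b4⟩ := wt_ne (right_ne_zero_of_mul k')
      have k1 := hb σ (left_ne_zero_of_mul k')
      rcases mem_insert.1 ha with rfl | ha
      · exact b3 rfl
      · rw [← h.eq (σ.injective.ne d1) (k1 (i + 1 + 1) (by simp [seg])) (k1 a ha) b2.symm,
          h.eq b1 (h.mem b1).1 b4 b2.symm] at k
        exact k (h.mem b1).2
  have p0 := (far_avg h hV hn {i} fun x hx y hy k =>
    (k ((mem_singleton.1 hx).trans (mem_singleton.1 hy).symm)).elim).2
  have w1 : ∀ σ : ZMod n ≃ V, ∑ y, wt blk (σ (i + 1 + 1)) (σ (i + 1 + 1 + 1)) y = 1 := fun σ =>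
    wt_sum h (σ.injective.ne fun k => n1 (by linear_combination -k))
  simp only [card_insert_of_notMem m3, c3, ZMod.card, Finset.sum_ite_irrel, ← mul_sum, w1,
    sum_const_zero, mul_one, card_singleton, prod_range_one, prod_singleton, mul_zero] at p0 p1 p2
  have p3 : ((n : ℝ) - M) * ∑ σ : ZMod n ≃ V, WW blk σ i ≤ ∑ σ : ZMod n ≃ V, ∑ u,
      if u ∉ blk (σ i) (σ (i + 1)) then WW blk σ i else 0 := by
    rw [mul_sum]
    refine sum_le_sum fun σ _ => ?_
    simp only [← mem_compl, Fintype.sum_ite_mem, sum_const, card_compl, hV, nsmul_eq_mul]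
    have := hM _ _ (σ.injective.ne d1)
    rw [Nat.cast_sub (this.trans hMn)]
    exact mul_le_mul_of_nonneg_right (sub_le_sub_left (Nat.cast_le.2 this) _) (wt_nonneg h _ _ _)
  have r5 : (5 : ℝ) ≤ n := by exact_mod_cast hn
  have rM : (M : ℝ) ≤ n := by exact_mod_cast hMn
  rw [← p1, ← p2] at p3
  rw [mul_assoc, div_mul_eq_mul_div, div_le_iff₀ (mul_pos (by linarith) (by linarith))]
  refine ((mul_le_mul_of_nonneg_left p0 (by linarith)).trans p3).trans_eq ?_
  push_cast
  rw [← mul_assoc, mul_comm]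
  exact congrArg₂ (· * ·) rfl (by ring)

/-- The lower bound for the average gain. -/
noncomputable def gain (n M : ℕ) : ℝ :=
  1 + n * lam n 0 + n * ((n - 5 : ℕ) : ℝ) / 2 * (lam n 0 * lam n 3) +
    n * ((n - 5 : ℕ) : ℝ) * ((n - 10 : ℕ) : ℝ) / 6 * (lam n 0 * lam n 3 * lam n 6) +
    n * (((n : ℝ) - M) / ((n - 4) * (n - 3)) * lam n 0)

theorem gain_le (h : IsDes univ blk) (hV : Fintype.card V = n) (hn : 5 ≤ n) {M : ℕ}
    (hM : ∀ x y, x ≠ y → #(blk x y) ≤ M) (hMn : M ≤ n) :
    gain n M * Fintype.card (ZMod n ≃ V) ≤ ∑ σ : ZMod n ≃ V,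
      ∏ b, (1 + ∑ i with blk (σ i) (σ (i + 1)) = b, WW blk σ i) := by
  classical
  obtain ⟨n1, n2, n3, n4⟩ := ne_add hn
  have d1 : ∀ i : ZMod n, i ≠ i + 1 := fun i k => n1 (by linear_combination -k)
  have d2 : ∀ i : ZMod n, i ≠ i + 1 + 1 := fun i k => n2 (by linear_combination -k)
  have one : ∀ σ : ZMod n ≃ V, ∑ m ∈ range 4, ∑ I ∈ far n m, ∏ i ∈ I, WW blk σ i +
      ∑ i, (if σ (i + 1 + 1 + 1) ∉ blk (σ i) (σ (i + 1)) then
        WW blk σ i * WW blk σ (i + 1 + 1) else 0) ≤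
      ∏ b, (1 + ∑ i with blk (σ i) (σ (i + 1)) = b, WW blk σ i) := fun σ => by
    let F := {I ∈ (range 4).biUnion (far n) | ∏ i ∈ I, WW blk σ i ≠ 0}
    let E := ({i | σ (i + 1 + 1 + 1) ∉ blk (σ i) (σ (i + 1))} : Finset (ZMod n)).image
      fun i => ({i, i + 1 + 1} : Finset (ZMod n))
    have hF : ∀ I ∈ F, Far I := fun I hI =>
      let ⟨_, _, k⟩ := mem_biUnion.1 (mem_filter.1 hI).1
      (mem_far.1 k).2
    refine le_trans (le_of_eq ?_) (prod_ge (fun i => blk (σ i) (σ (i + 1))) (WW blk σ)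
      (fun i => wt_nonneg h _ _ _) univ (F ∪ E) fun I hI => ⟨?_, fun _ _ => mem_univ _⟩)
    · rw [sum_union (disjoint_left.2 fun I a b => ?_), sum_filter_ne_zero,
        sum_biUnion fun a _ b _ k => disjoint_left.2 fun I x y =>
          k ((mem_far.1 x).1.symm.trans (mem_far.1 y).1),
        sum_image fun i _ j _ e => ?_, sum_filter]
      · simp only [prod_pair (d2 _)]
      · rcases Set.pair_eq_pair_iff.1 (by simpa only [coe_pair] using congrArg SetLike.coe e)
          with k | k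
        exacts [k.1, (n4 (by linear_combination k.2 - k.1)).elim]
      · obtain ⟨i, -, rfl⟩ := mem_image.1 b
        exact disjoint_left.1 (hF _ a i (by simp) (i + 1 + 1) (by simp) (d2 i))
          (show i + 1 + 1 ∈ _ by simp [seg]) (by simp [seg])
    · rcases mem_union.1 hI with hI | hI
      · intro i hi j hj e
        by_contra k
        have h0 := prod_ne_zero_iff.1 (mem_filter.1 hI).2
        have hs : ∀ l ∈ I, #(seg l) = 3 ∧ (seg l).image σ ⊆ blk (σ l) (σ (l + 1)) := fun l hl =>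
          ⟨card_eq_three.2 ⟨_, _, _, d1 l, d2 l, d1 _, rfl⟩, by
            have := wt_ne (h0 l hl)
            simp [seg, insert_subset_iff, h.mem this.1, this.2.2.2]⟩
        have h6 := card_le_card (union_subset (hs i hi).2 ((hs j hj).2.trans (le_of_eq e.symm)))
        rw [← image_union, card_image_of_injective _ σ.injective,
          card_union_of_disjoint (hF I hI i hi j hj k), (hs i hi).1, (hs j hj).1] at h6
        rcases h.card (σ.injective.ne (d1 i)) with k | k <;> omega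
      · obtain ⟨i, hi, rfl⟩ := mem_image.1 hI
        have k : blk (σ i) (σ (i + 1)) ≠ blk (σ (i + 1 + 1)) (σ (i + 1 + 1 + 1)) := fun e =>
          (mem_filter.1 hi).2 (e ▸ (h.mem (σ.injective.ne (d1 _))).2)
        rw [coe_pair]
        rintro x (rfl | rfl) y (rfl | rfl) e
        exacts [rfl, (k e).elim, (k e.symm).elim, rfl]
  refine le_trans ?_ (sum_le_sum fun σ _ => one σ)
  rw [sum_add_distrib, sum_comm, sum_comm (s := univ) (t := univ)]
  have h1 : ∀ m, (#(far n m) : ℝ) * ((∏ j ∈ range m, lam n (3 * j)) *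
      Fintype.card (ZMod n ≃ V)) ≤ ∑ σ : ZMod n ≃ V, ∑ I ∈ far n m, ∏ i ∈ I, WW blk σ i :=
    fun m => by
    rw [sum_comm, ← nsmul_eq_mul]
    exact card_nsmul_le_sum _ _ _ fun I hI =>
      (mem_far.1 hI).1 ▸ (far_avg h hV hn I (mem_far.1 hI).2).2
  have h2 := card_nsmul_le_sum univ _ _ fun i _ => near_avg h hV hn hM hMn i
  have f0 : (1 : ℝ) ≤ #(far n 0) := by
    exact_mod_cast card_pos.2 ⟨∅, mem_far.2 ⟨rfl, fun _ k => (notMem_empty _ k).elim⟩⟩
  have f1 : (#(far n 0) : ℝ) * n ≤ #(far n 1) := by exact_mod_cast (by simpa using far_step 0)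
  have f2 : (#(far n 1) : ℝ) * (n - 5 : ℕ) ≤ #(far n 2) * 2 := by exact_mod_cast far_step 1
  have f3 : (#(far n 2) : ℝ) * (n - 10 : ℕ) ≤ #(far n 3) * 3 := by exact_mod_cast far_step 2
  have g1 : (n : ℝ) ≤ #(far n 1) := by nlinarith [(Nat.cast_nonneg n : (0 : ℝ) ≤ n)]
  have g2 : n * ((n - 5 : ℕ) : ℝ) / 2 ≤ #(far n 2) := by
    nlinarith [(Nat.cast_nonneg (n - 5) : (0 : ℝ) ≤ _)]
  have g3 : n * ((n - 5 : ℕ) : ℝ) * ((n - 10 : ℕ) : ℝ) / 6 ≤ #(far n 3) := by
    nlinarith [(Nat.cast_nonneg (n - 10) : (0 : ℝ) ≤ _)]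
  rw [card_univ, ZMod.card, nsmul_eq_mul] at h2
  refine le_trans ?_ (add_le_add (sum_le_sum fun m _ => h1 m) h2)
  have l := lam_nonneg n
  simp only [sum_range_succ, prod_range_succ, sum_range_zero, prod_range_zero, zero_add, one_mul,
    ← mul_assoc, ← add_mul, gain, mul_one]
  refine mul_le_mul_of_nonneg_right (add_le_add_left ?_ _) (Nat.cast_nonneg _)
  gcongr <;> exact l _

theorem gain_ge {n : ℕ} (hn : Odd n) (h5 : 5 ≤ n) (h7 : n ≠ 7) : 8 / 3 ≤ gain n 5 := by
  rcases le_or_gt 13 n with h | h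
  · obtain ⟨k, rfl⟩ := Nat.exists_eq_add_of_le' h
    have e : ∀ a, a ≤ 13 → k + 13 - a = k + (13 - a) := fun a h => by omega
    simp only [gain, lam, e, Nat.reduceMul, Nat.reduceLeDiff, Nat.reduceSub]
    push_cast
    rw [show (k : ℝ) + 13 - 4 = k + 9 by ring, show (k : ℝ) + 13 - 3 = k + 10 by ring,
      show (k : ℝ) + 13 - 5 = k + 8 by ring, ← sub_nonneg]
    have h0 : (0 : ℝ) ≤ k := Nat.cast_nonneg k
    field_simp
    ring_nf
    positivity
  · obtain ⟨k, rfl⟩ := hn
    have : k = 2 ∨ k = 4 ∨ k = 5 := by omega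
    rcases this with rfl | rfl | rfl <;> norm_num [gain, lam]

theorem gain_seven : 8 / 3 ≤ gain 7 3 := by norm_num [gain, lam]

end Pool.Agent.P.MP_012ca0_co.Sh
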