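import Pool.Agent.P.MP_012ca0_co.Designs

/-! Pairwise balanced designs with blocks of sizes three and five on every odd number of points. -/

namespace Pool.Agent.P.MP_012ca0_co.Sh

open Finset

/-- `blk x y` is the block through `x` and `y` of a design on `B` with blocks of size 3 or 5. -/
def IsDes {V : Type} (B : Finset V) (blk : V → V → Finset V) : Prop :=
  ∀ x ∈ B, ∀ y ∈ B, x ≠ y → x ∈ blk x y ∧ y ∈ blk x y ∧ blk x y ⊆ B ∧
    (#(blk x y) = 3 ∨ #(blk x y) = 5) ∧ ∀ u ∈ blk x y, ∀ v ∈ blk x y, u ≠ v → blk u v = blk x y

def Des {V : Type} (B : Finset V) : Prop := ∃ blk, IsDes B blk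

def GD (n : ℕ) : Prop := ∀ (V : Type) [DecidableEq V] (B : Finset V), #B = n → Des B

theorem GD_one : GD 1 := fun _ _ _ hB =>
  ⟨fun _ _ => ∅, fun x hx y hy h => absurd (card_le_one.1 hB.le x hx y hy) h⟩

theorem GD_three : GD 3 := fun _ _ B hB =>
  ⟨fun _ _ => B, fun _ hx _ hy _ => ⟨hx, hy, Subset.rfl, Or.inl hB, fun _ _ _ _ _ => rfl⟩⟩

theorem GD_five : GD 5 := fun _ _ B hB =>
  ⟨fun _ _ => B, fun _ hx _ hy _ => ⟨hx, hy, Subset.rfl, Or.inr hB, fun _ _ _ _ _ => rfl⟩⟩

theorem GD_of_des {W : Type} [Fintype W] (h : Des (univ : Finset W)) :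
    GD #(univ : Finset W) := by
  intro V _ B hB
  obtain ⟨blk, h⟩ := h
  let e : W ≃ B := Fintype.equivOfCardEq (by simp [hB])
  let j : W ↪ V := e.toEmbedding.trans (Function.Embedding.subtype _)
  have hj : ∀ x ∈ B, ∃ a, j a = x := fun x hx => ⟨e.symm ⟨x, hx⟩, by simp [j]⟩
  let blk' : V → V → Finset V := fun x y =>
    if h : x ∈ B ∧ y ∈ B then (blk (e.symm ⟨x, h.1⟩) (e.symm ⟨y, h.2⟩)).map j else ∅
  have h1 : ∀ a b, blk' (j a) (j b) = (blk a b).map j := fun a b => by
    have : j a ∈ B ∧ j b ∈ B := ⟨(e a).2, (e b).2⟩
    simp only [blk', dif_pos this]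
    exact congrArg₂ (fun a b => (blk a b).map j) (e.symm_apply_apply a) (e.symm_apply_apply b)
  refine ⟨blk', fun x hx y hy hxy => ?_⟩
  obtain ⟨a, rfl⟩ := hj x hx
  obtain ⟨b, rfl⟩ := hj y hy
  obtain ⟨a1, a2, -, a4, a5⟩ := h a (mem_univ _) b (mem_univ _) fun e => hxy (congrArg j e)
  rw [h1, card_map]
  refine ⟨mem_map_of_mem j a1, mem_map_of_mem j a2, fun z hz => ?_, a4, fun u hu v hv huv => ?_⟩
  · obtain ⟨c, -, rfl⟩ := mem_map.1 hz
    exact (e c).2
  · obtain ⟨c, hc, rfl⟩ := mem_map.1 hu
    obtain ⟨d, hd, rfl⟩ := mem_map.1 hv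
    rw [h1, a5 c hc d hd fun e => huv (congrArg j e)]

theorem des_of_pbd {V : Type} [Fintype V] (blk : V → V → Finset V)
    (h1 : ∀ x y, x ≠ y → x ∈ blk x y ∧ y ∈ blk x y)
    (h2 : ∀ x y, x ≠ y → ∀ u ∈ blk x y, ∀ v ∈ blk x y, u ≠ v → blk u v = blk x y)
    (h3 : ∀ x y, x ≠ y → Des (blk x y)) : Des (univ : Finset V) := by
  have h : ∀ b : Finset V, ∃ d, Des b → IsDes b d := fun b => by
    by_cases hb : Des b
    · exact hb.imp fun _ a _ => a
    · exact ⟨blk, fun a => (hb a).elim⟩
  choose d hd using h
  refine ⟨fun x y => d (blk x y) x y, fun x _ y _ hxy => ?_⟩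
  obtain ⟨a1, a2, a3, a4, a5⟩ := hd _ (h3 x y hxy) x (h1 x y hxy).1 y (h1 x y hxy).2 hxy
  refine ⟨a1, a2, subset_univ _, a4, fun u hu v hv huv => ?_⟩
  simp only [h2 x y hxy u (a3 hu) v (a3 hv) huv]
  exact a5 u hu v hv huv

/-- A design given by big blocks and a third-point operation. -/
theorem des_of_third {V : Type} [Fintype V] [DecidableEq V] (S : V → V → Prop) [DecidableRel S]
    (big : V → V → Finset V) (third : V → V → V)
    (hb1 : ∀ x y, x ≠ y → S x y → x ∈ big x y ∧ y ∈ big x y)
    (hb2 : ∀ x y, x ≠ y → S x y → ∀ u ∈ big x y, ∀ v ∈ big x y, u ≠ v →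
      S u v ∧ big u v = big x y)
    (hb3 : ∀ x y, x ≠ y → S x y → Des (big x y))
    (ht : ∀ x y, x ≠ y → ¬ S x y → third x y ≠ x ∧ third y x = third x y ∧
      ¬ S x (third x y) ∧ third x (third x y) = y) :
    Des (univ : Finset V) := by
  have hS : ∀ x y, x ≠ y → ¬ S x y → ¬ S y x := by
    intro x y hxy h h'
    exact h (hb2 y x hxy.symm h' x (hb1 y x hxy.symm h').2 y (hb1 y x hxy.symm h').1 hxy).1
  let blk : V → V → Finset V := fun x y => if S x y then big x y else {x, y, third x y}
  have k1 : ∀ x y, x ≠ y → ¬ S x y → blk y x = blk x y := by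
    intro x y hxy h
    simp only [blk, if_neg h, if_neg (hS x y hxy h), (ht x y hxy h).2.1]
    rw [insert_comm]
  have k2 : ∀ x y, x ≠ y → ¬ S x y → blk x (third x y) = blk x y := by
    intro x y hxy h
    obtain ⟨_, _, a3, a4⟩ := ht x y hxy h
    simp only [blk, if_neg h, if_neg a3, a4]
    rw [pair_comm]
  apply des_of_pbd blk
  · intro x y hxy
    by_cases h : S x y
    · simp only [blk, if_pos h]
      exact hb1 x y hxy h
    · simp [blk, if_neg h]
  · intro x y hxy u hu v hv huv
    by_cases h : S x y
    · simp only [blk, if_pos h] at hu hv ⊢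
      obtain ⟨a, b⟩ := hb2 x y hxy h u hu v hv huv
      rw [if_pos a, b]
    · obtain ⟨a1, a2, a3, a4⟩ := ht x y hxy h
      have h' := hS x y hxy h
      obtain ⟨b1, b2, b3, b4⟩ := ht y x hxy.symm h'
      have c1 := k1 x y hxy h
      have c2 := k2 x y hxy h
      have c3 := k2 y x hxy.symm h'
      have c4 := k1 x (third x y) a1.symm a3
      have c5 := k1 y (third y x) b1.symm b3
      rw [a2] at c3 c5
      simp only [blk, if_neg h, mem_insert, mem_singleton] at hu hv
      rcases hu with rfl | rfl | rfl <;> rcases hv with rfl | rfl | rfl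
      · exact absurd rfl huv
      · rfl
      · exact c2
      · exact c1
      · exact absurd rfl huv
      · exact c3.trans c1
      · exact c4.trans c2
      · exact c5.trans (c3.trans c1)
      · exact absurd rfl huv
  · intro x y hxy
    by_cases h : S x y
    · simp only [blk, if_pos h]
      exact hb3 x y hxy h
    · simp only [blk, if_neg h]
      obtain ⟨a1, a2, a3, a4⟩ := ht x y hxy h
      obtain ⟨b1, b2, b3, b4⟩ := ht y x hxy.symm (hS x y hxy h)
      apply GD_three
      rw [a2] at b1
      exact card_eq_three.2 ⟨x, y, third x y, hxy, a1.symm, b1.symm, rfl⟩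

variable {Q U : Type}

theorem des_triple [Fintype Q] [DecidableEq Q] [AddCommGroup Q] [Fintype U] [DecidableEq U]
    [Subsingleton U] (h : GD (Fintype.card Q + Fintype.card U)) :
    Des (univ : Finset ((Q × ZMod 3) ⊕ U)) := by
  have z3 : ∀ i j : ZMod 3, i ≠ j → i ≠ -i - j := by decide
  apply des_of_third S1 (fun x y => level1 (lev1 x y)) third1
  · rintro (a | a) (b | b) hxy hS
    · simp only [S1] at hS
      simp [mem_level1_inl, lev1, hS]
    · simp [mem_level1_inl, mem_level1_inr, lev1]
    · simp [mem_level1_inl, mem_level1_inr, lev1]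
    · simp [mem_level1_inr]
  · rintro x y _ _ (u | u) hu (v | v) hv huv
    · rw [mem_level1_inl] at hu hv
      exact ⟨hu.trans hv.symm, by simp only [lev1] at hu ⊢; rw [hu]⟩
    · rw [mem_level1_inl] at hu
      exact ⟨trivial, by simp only [lev1] at hu ⊢; rw [hu]⟩
    · rw [mem_level1_inl] at hv
      exact ⟨trivial, by simp only [lev1] at hv ⊢; rw [hv]⟩
    · exact absurd (congrArg Sum.inr (Subsingleton.elim u v)) huv
  · intro x y _ _
    exact h _ _ (card_level1 _)
  · rintro (a | a) (b | b) hxy hS
    · simp only [S1] at hS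
      have := z3 _ _ hS
      refine ⟨?_, ?_, ?_, ?_⟩
      · simp only [third1]
        intro e
        have e2 := congrArg Prod.snd (Sum.inl.inj e)
        exact this e2.symm
      · simp only [third1]
        congr 1
        abel
      · simp only [third1, S1]
        exact this
      · simp only [third1]
        congr 1
        abel
    · exact absurd trivial hS
    · exact absurd trivial hS
    · exact absurd trivial hS

theorem des_five [Fintype Q] [DecidableEq Q] [CommRing Q] (c : Q) (hc : 2 * c = 1)
    (s : Q → Bool) (hs : ∀ x, x ≠ 0 → s (-x) = !s x) :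
    Des (univ : Finset ((Q × ZMod 3) ⊕ Bool)) := by
  have half : ∀ x y : Q, 2 * x = 2 * y → x = y := by
    intro x y h
    linear_combination c * h - (x - y) * hc
  have z1 : ∀ i : ZMod 3, i ≠ i + 1 := by decide
  have z2 : ∀ i : ZMod 3, i ≠ i - 1 := by decide
  have z3 : ∀ i : ZMod 3, i - 1 ≠ i + 1 := by decide
  have z4 : ∀ i : ZMod 3, i ≠ i + 1 + 1 := by decide
  have z5 : ∀ i j : ZMod 3, i ≠ j → j ≠ i + 1 → i = j + 1 := by decide
  apply des_of_third (fun x y => inK x ∧ inK y) (fun _ _ => univ.filter inK) (third2 c s)
  · intro x y _ h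
    simpa using h
  · intro x y _ _ u hu v hv _
    simp only [mem_filter, mem_univ, true_and] at hu hv
    exact ⟨⟨hu, hv⟩, rfl⟩
  · intro x y _ _
    exact GD_five _ _ card_K
  · rintro (⟨a, i⟩ | a) (⟨b, j⟩ | b) hxy hS
    · simp only [inK] at hS
      by_cases hij : i = j
      · subst hij
        have hab : a ≠ b := fun e => hxy (by rw [e])
        have h1 : -(c * (a + b)) ≠ -a := by
          intro e
          apply hab
          linear_combination (2 : Q) * e + (a + b) * hc
        refine ⟨?_, ?_, ?_, ?_⟩
        · simp [third2, (z1 i).symm]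
        · simp [third2, add_comm]
        · simp only [third2, if_true, inK]
          rintro ⟨e1, e2⟩
          apply h1
          rw [e2, e1, neg_zero]
        · simp only [third2, if_true, if_neg (z1 i), if_neg h1]
          congr 2
          linear_combination (a + b) * hc
      · by_cases hji : j = i + 1
        · subst hji
          by_cases hb : b = -a
          · subst hb
            have ha : a ≠ 0 := fun e => hS ⟨e, by rw [e, neg_zero]⟩
            refine ⟨?_, ?_, ?_, ?_⟩
            · simp [third2, z1 i]
            · simp [third2, z1 i, (z1 i).symm, z4 i]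
            · simp [third2, z1 i, inK, ha]
            · simp [third2, z1 i]
          · have h1 : -(2 * b) - a ≠ a := by
              intro e
              apply hb
              apply half
              linear_combination -e
            refine ⟨?_, ?_, ?_, ?_⟩
            · simp [third2, z1 i, hb, h1]
            · simp [third2, z1 i, (z1 i).symm, z4 i, hb]
            · simp only [third2, if_neg (z1 i), if_true, if_neg hb, inK]
              rintro ⟨e1, e2⟩
              apply h1
              rw [e2, e1]
            · simp only [third2, if_neg (z1 i), if_true, if_neg hb]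
              congr 2
              linear_combination b * hc
        · have hi := z5 i j hij hji
          subst hi
          by_cases ha : a = -b
          · subst ha
            have hb : b ≠ 0 := fun e => hS ⟨by rw [e, neg_zero], e⟩
            have hsb := hs b hb
            refine ⟨?_, ?_, ?_, ?_⟩
            · simp [third2, (z1 j).symm, z4 j]
            · simp [third2, z1 j, (z1 j).symm, z4 j]
            · simp [third2, (z1 j).symm, z4 j, inK, hb]
            · simp [third2, (z1 j).symm, z4 j, hsb]
          · have h1 : a ≠ -(-(2 * a) - b) := by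
              intro e
              apply ha
              linear_combination -e
            refine ⟨?_, ?_, ?_, ?_⟩
            · simp [third2, z1 j, (z1 j).symm, z4 j, ha]
            · simp [third2, z1 j, (z1 j).symm, z4 j, ha]
            · simp only [third2, if_neg (z1 j).symm, if_neg (z4 j), if_neg ha, inK]
              rintro ⟨e1, e2⟩
              apply h1
              rw [e2, e1, neg_zero]
            · simp only [third2, if_neg (z1 j).symm, if_neg (z4 j), if_neg ha, if_neg h1]
              congr 2
              ring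
    · have ha : a ≠ 0 := fun e => hS ⟨e, trivial⟩
      have hsa := hs a ha
      by_cases hb : s a = b
      · subst hb
        refine ⟨?_, ?_, ?_, ?_⟩
        · simp [third2, (z1 i).symm]
        · simp [third2]
        · simp [third2, inK, ha]
        · simp [third2, z1 i]
      · refine ⟨?_, ?_, ?_, ?_⟩
        · simp [third2, hb, (z2 i).symm]
        · simp [third2]
        · simp [third2, hb, inK, ha]
        · simp only [third2, if_neg hb, if_neg (z2 i), if_neg (z3 i), neg_neg, if_true, hsa]
          congr 1
          revert hb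
          cases s a <;> cases b <;> simp
    · have hb : b ≠ 0 := fun e => hS ⟨trivial, e⟩
      have hsb := hs b hb
      by_cases ha : s b = a
      · subst ha
        refine ⟨?_, ?_, ?_, ?_⟩
        · simp [third2]
        · simp [third2]
        · simp [third2, inK, hb]
        · simp [third2, hsb]
      · have ha' : s (-b) = a := by
          rw [hsb]
          revert ha
          cases s b <;> cases a <;> simp
        refine ⟨?_, ?_, ?_, ?_⟩
        · simp [third2, ha]
        · simp [third2]
        · simp [third2, ha, inK, hb]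
        · simp [third2, ha, ha']
    · exact absurd ⟨trivial, trivial⟩ hS

theorem GD_odd : ∀ n : ℕ, Odd n → GD n := by
  intro n
  induction n using Nat.strong_induction_on with
  | _ n ih =>
    intro hn
    obtain ⟨k, hk⟩ := hn
    by_cases h1 : n = 1
    · rw [h1]; exact GD_one
    have h3 : n % 3 = 0 ∨ n % 3 = 1 ∨ n % 3 = 2 := by omega
    rcases h3 with h3 | h3 | h3
    · have : NeZero (n / 3) := ⟨by omega⟩
      have hg := des_triple (Q := ZMod (n / 3)) (U := Empty)
        (ih _ (by simp; omega) (by simp; exact ⟨(n / 3) / 2, by omega⟩))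
      have := GD_of_des hg
      simp only [card_univ, Fintype.card_sum, Fintype.card_prod, ZMod.card,
        Fintype.card_empty] at this
      convert this using 1
      omega
    · have : NeZero (n / 3) := ⟨by omega⟩
      have hg := des_triple (Q := ZMod (n / 3)) (U := Unit)
        (ih _ (by simp; omega) (by simp; exact ⟨(n / 3) / 2, by omega⟩))
      have := GD_of_des hg
      simp only [card_univ, Fintype.card_sum, Fintype.card_prod, ZMod.card,
        Fintype.card_unit] at this
      convert this using 1
      omega
    · have : NeZero (n / 3) := ⟨by omega⟩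
      have hm : n / 3 = 2 * (n / 6) + 1 := by omega
      have hc : (2 : ZMod (n / 3)) * ((n / 6 + 1 : ℕ) : ZMod (n / 3)) = 1 := by
        have e : ((2 * (n / 6 + 1) : ℕ) : ZMod (n / 3)) = ((n / 3 + 1 : ℕ) : ZMod (n / 3)) := by
          congr 1
          omega
        push_cast at e ⊢
        rw [e]
        simp
      have hg := des_five (Q := ZMod (n / 3)) _ hc (fun x => decide (x.val < (-x).val)) (by
        intro x hx
        have hne : x.val ≠ (-x).val := by
          intro e
          have e2 : x = -x := ZMod.val_injective _ e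
          apply hx
          linear_combination (((n / 6 + 1 : ℕ) : ZMod (n / 3))) * e2 - x * hc
        simp only [neg_neg]
        by_cases hlt : x.val < (-x).val
        · have : ¬ (-x).val < x.val := by omega
          simp [hlt, this]
        · have : (-x).val < x.val := by omega
          simp [hlt, this])
      have := GD_of_des hg
      simp only [card_univ, Fintype.card_sum, Fintype.card_prod, ZMod.card,
        Fintype.card_bool] at this
      convert this using 1
      omega

/-- The Fano plane. -/
def fano (x y : Fin 7) : Finset (Fin 7) :=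
  {z | ∃ t : Fin 7, ({x, y, z} : Finset (Fin 7)) ⊆ {t, t + 1, t + 3}}

theorem fano_des : IsDes univ fano ∧ ∀ x y, x ≠ y → #(fano x y) ≤ 3 := by
  unfold IsDes
  decide +kernel

end Pool.Agent.P.MP_012ca0_co.Sh
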