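import Pool.Agent.P.MP_012ca0_co.Sh.Blk

/-! Expansion of the product of the gains, and averages over all labellings. -/

namespace Pool.Agent.P.MP_012ca0_co.Sh

open Finset

theorem prod_ge {ι B : Type} [Fintype ι] [DecidableEq ι] [DecidableEq B] (β : ι → B) (W : ι → ℝ)
    (hW : ∀ i, 0 ≤ W i) (t : Finset B) : ∀ 𝓘 : Finset (Finset ι),
      (∀ I ∈ 𝓘, Set.InjOn β I ∧ ∀ i ∈ I, β i ∈ t) →
      ∑ I ∈ 𝓘, ∏ i ∈ I, W i ≤ ∏ b ∈ t, (1 + ∑ i with β i = b, W i) := by
  have h0 : ∀ I : Finset ι, 0 ≤ ∏ i ∈ I, W i := fun I => prod_nonneg fun i _ => hW i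
  induction t using Finset.induction_on with
  | empty =>
    intro 𝓘 h
    refine (sum_le_sum_of_subset_of_nonneg (t := {∅}) (fun I hI => mem_singleton.2 ?_)
      fun I _ _ => h0 I).trans_eq (by simp)
    exact eq_empty_of_forall_notMem fun i hi => notMem_empty _ ((h I hI).2 i hi)
  | insert b t hb ih =>
    intro 𝓘 h
    rw [prod_insert hb, add_mul, one_mul, sum_mul]
    calc _ ≤ ∑ I ∈ 𝓘, ((if ∀ i ∈ I, β i ≠ b then ∏ i ∈ I, W i else 0) +
          ∑ j with β j = b, if j ∈ I then ∏ i ∈ I, W i else 0) := by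
          refine sum_le_sum fun I _ => ?_
          have h1 : ∀ j, 0 ≤ if j ∈ I then ∏ i ∈ I, W i else 0 := fun j => by
            split_ifs
            exacts [h0 I, le_rfl]
          split_ifs with h2
          · exact le_add_of_nonneg_right (sum_nonneg fun j _ => h1 j)
          · push Not at h2
            obtain ⟨j, h3, h4⟩ := h2
            rw [zero_add]
            exact (if_pos h3).ge.trans (single_le_sum (fun j _ => h1 j) (by simpa using h4))
      _ ≤ _ := by
          rw [sum_add_distrib, sum_comm, ← sum_filter]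
          refine add_le_add (ih _ fun I hI => ?_) (sum_le_sum fun j hj => ?_)
          · obtain ⟨a1, a2⟩ := mem_filter.1 hI
            exact ⟨(h I a1).1, fun i hi => (mem_insert.1 ((h I a1).2 i hi)).resolve_left (a2 i hi)⟩
          · rw [← sum_filter]
            refine le_trans (le_of_eq ?_) (mul_le_mul_of_nonneg_left
              (ih (({I ∈ 𝓘 | j ∈ I}).image (erase · j)) fun J hJ => ?_) (hW j))
            · rw [sum_image fun I hI I' hI' e => by
                rw [← insert_erase (mem_filter.1 hI).2, ← insert_erase (mem_filter.1 hI').2]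
                exact congrArg (insert j) e, mul_sum]
              exact sum_congr rfl fun I hI => (mul_prod_erase _ _ (mem_filter.1 hI).2).symm
            · obtain ⟨I, hI, rfl⟩ := mem_image.1 hJ
              obtain ⟨a1, a2⟩ := mem_filter.1 hI
              refine ⟨(h I a1).1.mono (coe_subset.2 (erase_subset _ _)), fun i hi => ?_⟩
              refine (mem_insert.1 ((h I a1).2 i (mem_of_mem_erase hi))).resolve_left fun e => ?_
              exact ne_of_mem_erase hi ((h I a1).1 (mem_of_mem_erase hi) a2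
                (e.trans (mem_filter.1 hj).2.symm))

variable {ι V : Type} [Fintype ι] [DecidableEq ι] [Fintype V] [DecidableEq V]

/-- `Φ` depends only on the values of the labelling on `A`. -/
def Dep {α : Type} (A : Finset ι) (Φ : (ι ≃ V) → α) : Prop :=
  ∀ σ σ' : ι ≃ V, (∀ a ∈ A, σ a = σ' a) → Φ σ = Φ σ'

theorem point {A : Finset ι} {i : ι} (hi : i ∉ A) {Φ : (ι ≃ V) → V → ℝ} (h1 : Dep A Φ)
    (h2 : ∀ σ, ∀ a ∈ A, Φ σ (σ a) = 0) :
    ((Fintype.card ι : ℝ) - #A) * ∑ σ, Φ σ (σ i) = ∑ σ, ∑ y, Φ σ y := by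
  have h3 : ∀ j ∈ Aᶜ, ∑ σ, Φ σ (σ i) = ∑ σ, Φ σ (σ j) := fun j hj => by
    refine (Fintype.sum_equiv (Equiv.equivCongr (Equiv.swap i j) (Equiv.refl V)) _ _
      fun σ => ?_).symm
    rw [h1 σ (Equiv.equivCongr (Equiv.swap i j) (Equiv.refl V) σ) fun a ha => by
      simp [Equiv.swap_apply_of_ne_of_ne (ne_of_mem_of_not_mem ha hi)
        (ne_of_mem_of_not_mem ha (mem_compl.1 hj))]]
    simp
  rw [← Nat.cast_sub (card_le_univ A), ← card_compl, ← nsmul_eq_mul, ← sum_const,
    sum_congr rfl h3, sum_comm]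
  refine sum_congr rfl fun σ _ => ?_
  rw [← σ.sum_comp, ← sum_compl_add_sum A, sum_eq_zero (h2 σ), add_zero]

variable {blk : V → V → Finset V}

theorem wt_nonneg (h : IsDes univ blk) (x y z : V) : 0 ≤ wt blk x y z := by
  unfold wt
  split_ifs with k
  · rcases h.card k.1 with e | e <;> rw [e] <;> norm_num
  · rfl

theorem wt_sum (h : IsDes univ blk) {x y : V} (hxy : x ≠ y) : ∑ z, wt blk x y z = 1 := by
  have e : ({z | x ≠ y ∧ z ≠ x ∧ z ≠ y ∧ z ∈ blk x y} : Finset V) =
      ((blk x y).erase y).erase x := by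
    ext z
    simp [hxy]
  unfold wt
  rw [← sum_filter, e, sum_const, card_erase_of_mem (mem_erase.2 ⟨hxy, (h.mem hxy).1⟩),
    card_erase_of_mem (h.mem hxy).2]
  rcases h.card hxy with e | e <;> rw [e] <;> norm_num

omit [Fintype V] in
theorem wt_ne {x y z : V} (h : wt blk x y z ≠ 0) : x ≠ y ∧ z ≠ x ∧ z ≠ y ∧ z ∈ blk x y :=
  by_contra fun k => h (if_neg k)

theorem wt_symm (h : IsDes univ blk) (x y z : V) : wt blk x y z = wt blk x z y := by
  have k : ∀ y z, wt blk x y z ≠ 0 → wt blk x y z = wt blk x z y := fun y z k => by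
    obtain ⟨a1, a2, a3, a4⟩ := wt_ne k
    simp [wt, h.eq a1 (h.mem a1).1 a4 a2.symm, a1, a2, a3, a4, a1.symm, a2.symm, a3.symm,
      (h.mem a1).2]
  by_cases k1 : wt blk x y z = 0
  · by_contra k2
    exact k2 (k z y fun k3 => k2 (k1.trans k3.symm)).symm
  · exact k y z k1

/-- The weight restricted to the complement of `S`. -/
noncomputable def wS (blk : V → V → Finset V) (S : Finset V) (x y z : V) : ℝ :=
  if x ∉ S ∧ y ∉ S ∧ z ∉ S then wt blk x y z else 0

theorem wS_sum (h : IsDes univ blk) (S : Finset V) :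
    ((Fintype.card V : ℝ) - #S) * ((Fintype.card V - 2 * #S - 1 : ℕ) : ℝ) ≤
      ∑ x, ∑ y, ∑ z, wS blk S x y z := by
  have e : ∑ x, ∑ y, ∑ z, wS blk S x y z = ∑ x ∈ Sᶜ, ∑ y ∈ Sᶜ, ∑ z ∈ Sᶜ, wt blk x y z := by
    simp only [wS, ite_and, Finset.sum_ite_irrel, sum_const_zero, ← mem_compl,
      Fintype.sum_ite_mem]
  rw [e, ← Nat.cast_sub (card_le_univ S), ← card_compl, ← nsmul_eq_mul, ← sum_const]
  refine sum_le_sum fun x hx => ?_
  rcases le_total (Fintype.card V) (2 * #S + 1) with k | k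
  · rw [Nat.sub_sub, Nat.sub_eq_zero_of_le k, Nat.cast_zero]
    exact sum_nonneg fun _ _ => sum_nonneg fun _ _ => wt_nonneg h _ _ _
  have h1 : ∑ y ∈ Sᶜ, ∑ z, wt blk x y z = Fintype.card V - #S - 1 := by
    rw [← add_sum_erase _ _ hx, sum_eq_zero fun z _ => by simp [wt],
      sum_congr rfl fun y hy => wt_sum h (ne_of_mem_erase hy).symm, sum_const,
      card_erase_of_mem hx, card_compl, Nat.sub_sub, nsmul_eq_mul, Nat.cast_sub (by omega)]
    push_cast
    ring
  have h2 : ∑ y ∈ Sᶜ, ∑ z ∈ S, wt blk x y z ≤ #S := by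
    rw [sum_comm, ← nsmul_one, ← sum_const]
    refine sum_le_sum fun z hz => ?_
    rw [← wt_sum h (ne_of_mem_of_not_mem hz (mem_compl.1 hx)).symm]
    exact (sum_congr rfl fun y _ => wt_symm h x y z).trans_le
      (sum_le_univ_sum_of_nonneg (wt_nonneg h x z))
  simp only [← sum_compl_add_sum S (wt blk x _), sum_add_distrib] at h1
  rw [Nat.sub_sub, Nat.cast_sub k]
  push_cast
  linarith

/-- The average weight of a path that avoids `s` points. -/
noncomputable def lam (n s : ℕ) : ℝ :=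
  ((n - 2 * s - 1 : ℕ) : ℝ) / (((n - s - 1 : ℕ) : ℝ) * ((n - s - 2 : ℕ) : ℝ))

theorem lam_nonneg (n s : ℕ) : 0 ≤ lam n s := by unfold lam; positivity

theorem triple (h : IsDes univ blk) (hc : Fintype.card ι = Fintype.card V) {A : Finset ι}
    {i j k : ι} (hi : i ∉ A) (hj : j ∉ A) (hk : k ∉ A) (hij : i ≠ j) (hik : i ≠ k) (hjk : j ≠ k)
    {G : (ι ≃ V) → ℝ} (hG : Dep A G) (h0 : ∀ σ, 0 ≤ G σ) :
    lam (Fintype.card V) #A * ∑ σ, G σ ≤ ∑ σ, G σ * wt blk (σ i) (σ j) (σ k) := by
  have hS : Dep A fun σ : ι ≃ V => A.image σ := fun σ σ' e => image_congr e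
  have m : ∀ (σ : ι ≃ V) (a : ι), σ a ∈ A.image σ ↔ a ∈ A := fun σ a =>
    σ.injective.mem_finset_image
  have j1 : j ∉ insert i A := by simp [hj, hij.symm]
  have k1 : k ∉ insert j (insert i A) := by simp [hk, hik.symm, hjk.symm]
  have p1 := point (V := V) hi
    (Φ := fun σ x => G σ * ∑ y, ∑ z, wS blk (A.image σ) x y z)
    (fun σ σ' e => by simp only [hG σ σ' e, hS σ σ' e]) fun σ a ha => by simp [wS, m, ha]
  have p2 := point (V := V) j1
    (Φ := fun σ y => G σ * ∑ z, wS blk (A.image σ) (σ i) y z)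
    (fun σ σ' e => by
      have e' := fun a ha => e a (mem_insert_of_mem ha)
      simp only [hG σ σ' e', hS σ σ' e', e i (mem_insert_self _ _)]) fun σ a ha => by
      rcases mem_insert.1 ha with rfl | ha
      · simp [wS, wt]
      · simp [wS, m, ha]
  have p3 := point (V := V) k1
    (Φ := fun σ z => G σ * wS blk (A.image σ) (σ i) (σ j) z)
    (fun σ σ' e => by
      have e' := fun a ha => e a (mem_insert_of_mem (mem_insert_of_mem ha))
      simp only [hG σ σ' e', hS σ σ' e', e j (mem_insert_self _ _),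
        e i (mem_insert_of_mem (mem_insert_self _ _))]) fun σ a ha => by
      rcases mem_insert.1 ha with rfl | ha
      · simp [wS, wt]
      rcases mem_insert.1 ha with rfl | ha
      · simp [wS, wt]
      · simp [wS, m, ha]
  have c3 := card_le_univ (insert k (insert j (insert i A)))
  simp only [card_insert_of_notMem, hi, j1, k1, not_false_eq_true, ← mul_sum, hc] at p1 p2 p3 c3
  have e : ∀ σ : ι ≃ V, wS blk (A.image σ) (σ i) (σ j) (σ k) = wt blk (σ i) (σ j) (σ k) :=
    fun σ => if_pos (by simp [m, hi, hj, hk])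
  have p0 : ((Fintype.card V : ℝ) - #A) * (((Fintype.card V - 2 * #A - 1 : ℕ) : ℝ) * ∑ σ, G σ) ≤
      ∑ σ, G σ * ∑ x, ∑ y, ∑ z, wS blk (A.image σ) x y z := by
    rw [← mul_assoc, mul_sum]
    refine sum_le_sum fun σ _ => ?_
    rw [mul_comm, ← card_image_of_injective A σ.injective]
    exact mul_le_mul_of_nonneg_left (wS_sum h _) (h0 σ)
  have c4 : (#A : ℝ) + 3 ≤ Fintype.card V := by exact_mod_cast c3
  rw [← p1, ← p2, ← p3] at p0
  have p4 := le_of_mul_le_mul_left p0 (by linarith)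
  simp only [e] at p4
  unfold lam
  rw [Nat.sub_sub _ _ 1, Nat.sub_sub _ (#A) 1, Nat.sub_sub _ (#A) 2,
    Nat.cast_sub (show #A + 1 ≤ _ by omega), Nat.cast_sub (show #A + 2 ≤ _ by omega),
    div_mul_eq_mul_div, div_le_iff₀ (mul_pos (by push_cast; linarith) (by push_cast; linarith)),
    ← Nat.sub_sub]
  refine p4.trans_eq ?_
  push_cast
  ring

end Pool.Agent.P.MP_012ca0_co.Sh
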