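import Pool.Agent.P.MP_012ca0_co.Sh.Cyc

/-! Regular tournaments with many Hamilton cycles: the sharp constant. -/

namespace Pool.Agent.P.MP_012ca0_co.Sh

open Finset

/-- The Hamilton cycle of a labelling. -/
def cyc {n : ℕ} (σ : ZMod n ≃ Fin n) : Equiv.Perm (Fin n) := σ.permCongr (Equiv.addRight 1)

theorem cyc_apply {n : ℕ} (σ : ZMod n ≃ Fin n) (i : ZMod n) : cyc σ (σ i) = σ (i + 1) := by
  simp [cyc]

theorem cyc_pow {n : ℕ} (σ : ZMod n ≃ Fin n) (k : ℕ) : (cyc σ ^ k) (σ 0) = σ k := by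
  induction k with
  | zero => simp
  | succ k ih => rw [pow_succ', Equiv.Perm.mul_apply, ih, cyc_apply, Nat.cast_succ]

theorem of_des {n M : ℕ} (hn : 5 ≤ n) {blk : Fin n → Fin n → Finset (Fin n)} (h : IsDes univ blk)
    (hM : ∀ x y, x ≠ y → #(blk x y) ≤ M) (hMn : M ≤ n) (hg : 8 / 3 ≤ gain n M) :
    ∃ adj : Fin n → Fin n → Prop, (∀ v, ¬ adj v v) ∧ (∀ v w, v ≠ w → (adj v w ↔ ¬ adj w v)) ∧
      (∀ v, {w : Fin n | adj v w}.ncard = (n - 1) / 2) ∧
      8 / 3 * (((n - 1).factorial : ℝ) / 2 ^ n) ≤ ({g : Equiv.Perm (Fin n) |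
        g.IsCycle ∧ g.support = univ ∧ ∀ v, adj v (g v)}.ncard : ℝ) := by
  classical
  have : NeZero n := ⟨by omega⟩
  obtain ⟨n1, n2, -, -⟩ := ne_add hn
  have hs : ∀ σ : ZMod n ≃ Fin n, Suc (cyc σ) := fun σ =>
    ⟨(cyc σ).injective, σ.surjective.forall.2 fun i k => n1 (by
      rw [cyc_apply] at k; linear_combination σ.injective k), σ.surjective.forall.2 fun i k => n2 (by
      rw [cyc_apply, cyc_apply] at k; linear_combination σ.injective k)⟩
  obtain ⟨T, ⟨a1, a2⟩, a3⟩ := exists_tour h (fun σ : ZMod n ≃ Fin n => cyc σ) hs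
  refine ⟨fun v w => v ≠ w ∧ T v w = true, fun v k => k.1 rfl, fun v w k => ?_, fun v => ?_, ?_⟩
  · simp only [a1 v (mem_univ _) w (mem_univ _) k, k, k.symm, ne_eq, not_false_eq_true, true_and]
    cases T w v <;> simp
  · have e : {w : Fin n | v ≠ w ∧ T v w = true} = ({y ∈ univ.erase v | T v y = true} : Finset _) := by
      ext w
      simp [ne_comm]
    have := a2 v (mem_univ _)
    rw [card_erase_of_mem (mem_univ _), card_univ, Fintype.card_fin] at this
    rw [e, Set.ncard_coe_finset]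
    omega
  have b1 := gain_le h (Fintype.card_fin n) hn hM hMn
  have e : ∀ (σ : ZMod n ≃ Fin n) (b : Finset (Fin n)),
      ∑ i with blk (σ i) (σ (i + 1)) = b, WW blk σ i =
      ∑ v with blk v (cyc σ v) = b, wt blk v (cyc σ v) (cyc σ (cyc σ v)) := fun σ b => by
    rw [sum_filter, sum_filter, ← σ.sum_comp]
    simp only [cyc_apply, WW]
  simp only [e] at b1
  set S := {g : Equiv.Perm (Fin n) | g.IsCycle ∧ g.support = univ ∧
    ∀ v, v ≠ g v ∧ T v (g v) = true} with hS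
  have b2 : ∀ s : Finset (ZMod n ≃ Fin n), (∀ σ ∈ s, ∀ v, T v (cyc σ v) = true) →
      #s ≤ S.ncard * n := fun s hT => by
    refine (card_le_card_of_injOn (t := S.toFinset ×ˢ univ) (fun σ => (cyc σ, σ 0))
      (fun σ k => ?_) fun σ _ σ' _ k => ?_).trans_eq
      (by rw [card_product, card_fin, Set.ncard_eq_toFinset_card'])
    · simp only [coe_product, Set.coe_toFinset, coe_univ, Set.mem_prod, Set.mem_univ, and_true]
      refine ⟨⟨σ 0, (hs σ).2.1 _, σ.surjective.forall.2 fun i _ => ⟨(i.val : ℕ), ?_⟩⟩,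
        eq_univ_of_forall fun v => Equiv.Perm.mem_support.2 ((hs σ).2.1 v),
        fun v => ⟨((hs σ).2.1 v).symm, hT σ k v⟩⟩
      rw [zpow_natCast, cyc_pow, ZMod.natCast_zmod_val]
    · obtain ⟨k1, k2⟩ := Prod.mk.inj k
      ext i
      rw [← ZMod.natCast_zmod_val i, ← cyc_pow, ← cyc_pow, k1, k2]
  have b3 : (Fintype.card (ZMod n ≃ Fin n) : ℝ) = n * (n - 1).factorial := by
    rw [Fintype.card_equiv (Fintype.equivOfCardEq (by simp)), ZMod.card,
      ← Nat.mul_factorial_pred (NeZero.ne n), Nat.cast_mul]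
  have b4 : (0 : ℝ) < n := by exact_mod_cast NeZero.pos n
  rw [Fintype.card_fin] at a3
  have b5 := ((mul_le_mul_of_nonneg_right hg (Nat.cast_nonneg _)).trans (b1.trans a3)).trans
    (mul_le_mul_of_nonneg_left (Nat.cast_le.2 (b2 _ fun σ k => by simpa using k)) (by positivity))
  rw [b3, Nat.cast_mul] at b5
  rw [← mul_div_assoc, div_le_iff₀ (by positivity)]
  exact le_of_mul_le_mul_left (by linarith) b4

theorem lower (n : ℕ) (hn : Odd n) (h3 : 3 ≤ n) :
    ∃ adj : Fin n → Fin n → Prop, (∀ v, ¬ adj v v) ∧ (∀ v w, v ≠ w → (adj v w ↔ ¬ adj w v)) ∧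
      (∀ v, {w : Fin n | adj v w}.ncard = (n - 1) / 2) ∧
      8 / 3 * (((n - 1).factorial : ℝ) / 2 ^ n) ≤ ({g : Equiv.Perm (Fin n) |
        g.IsCycle ∧ g.support = univ ∧ ∀ v, adj v (g v)}.ncard : ℝ) := by
  by_cases k3 : n = 3
  · subst k3
    refine ⟨fun v w => w = v + 1, by decide, by decide, fun v => by simp, ?_⟩
    refine le_trans (by norm_num [Nat.factorial]) (Nat.one_le_cast.2 ((Set.ncard_pos (Set.toFinite _)).2
      ⟨finRotate 3, isCycle_finRotate, support_finRotate, by decide⟩))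
  by_cases k7 : n = 7
  · subst k7
    exact of_des (by norm_num) fano_des.1 fano_des.2 (by norm_num) gain_seven
  have h5 : 5 ≤ n := by obtain ⟨k, rfl⟩ := hn; omega
  obtain ⟨blk, h⟩ := GD_odd n hn (Fin n) univ (card_fin n)
  exact of_des h5 h (fun x y k => by rcases h.card k with e | e <;> omega) h5 (gain_ge hn h5 k7)

/-- The tournament on five points with given arcs above the diagonal. -/
def tour (a b c d e f g h i j : Bool) : Fin 5 → Fin 5 → Bool :=
  ![![false, a, b, c, d], ![!a, false, e, f, g], ![!b, !e, false, h, i], ![!c, !f, !h, false, j],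
    ![!d, !g, !i, !j, false]]

theorem five_chk : ∀ a b c d e f g h i j : Bool,
    (∀ v, #{w | tour a b c d e f g h i j v w = true} = 2) →
    #{s : Equiv.Perm (Fin 5) | ∀ v, tour a b c d e f g h i j v (s v) = true} ≤ 2 := by
  decide +kernel

theorem upper (adj : Fin 5 → Fin 5 → Prop) (h1 : ∀ v, ¬ adj v v)
    (h2 : ∀ v w, v ≠ w → (adj v w ↔ ¬ adj w v)) (h3 : ∀ v, {w | adj v w}.ncard = (5 - 1) / 2) :
    {g : Equiv.Perm (Fin 5) | g.IsCycle ∧ g.support = univ ∧ ∀ v, adj v (g v)}.ncard ≤ 2 := by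
  classical
  have e : ∀ v w, adj v w ↔ tour (adj 0 1) (adj 0 2) (adj 0 3) (adj 0 4) (adj 1 2) (adj 1 3)
      (adj 1 4) (adj 2 3) (adj 2 4) (adj 3 4) v w = true := fun v w => by
    fin_cases v <;> fin_cases w <;> simp [tour, h1] <;> exact h2 _ _ (by decide)
  refine le_trans ?_ (five_chk (adj 0 1) (adj 0 2) (adj 0 3) (adj 0 4) (adj 1 2) (adj 1 3)
    (adj 1 4) (adj 2 3) (adj 2 4) (adj 3 4) fun v => ?_)
  · rw [← Set.ncard_coe_finset]
    exact Set.ncard_le_ncard (fun g k => mem_coe.2 (mem_filter.2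
      ⟨mem_univ _, fun v => (e _ _).1 (k.2.2 v)⟩)) (Set.toFinite _)
  · rw [← Set.ncard_coe_finset]
    exact (congrArg Set.ncard (Set.ext fun w => by simp [← e])).trans (h3 v)

end Pool.Agent.P.MP_012ca0_co.Sh
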